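import Pool.Agent.Helper29_SGE.Cb

/-!
# Rotation of canonical sequences
-/

set_option autoImplicit false

namespace Pool.Agent.SGE.H17

open Pool.Agent.SGE

/-- Canonical sequences with base `b c`; the contour is `Y ++ [c]`, `L` are the vertices whose right
end is `c` (the last one first, then `b`). -/
inductive RC {V : Type} (b c : V) : List V → List V → List (V × List V) → Prop
  | base (h : b ≠ c) : RC b c [b] [b] []
  | inn {L P Q mid : List V} {p q v : V} {T : List (V × List V)}
      (h : RC b c L (P ++ p :: (mid ++ q :: Q)) T) (hb : v ≠ b) (hc : v ≠ c)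
      (hv : ∀ x ∈ T, x.1 ≠ v) : RC b c L (P ++ p :: v :: q :: Q) ((v, p :: (mid ++ [q])) :: T)
  | out {L P mid : List V} {p v : V} {T : List (V × List V)}
      (h : RC b c L (P ++ p :: mid) T) (hb : v ≠ b) (hc : v ≠ c)
      (hv : ∀ x ∈ T, x.1 ≠ v) : RC b c (v :: L) (P ++ [p, v]) ((v, p :: (mid ++ [c])) :: T)

theorem RC.can {V : Type} {b c : V} {L Y : List V} {T : List (V × List V)}
    (h : RC b c L Y T) : Can b c (Y ++ [c]) T := by
  induction h with
  | base h => exact Can.base h
  | @inn L P Q mid p q v T h hb hc hv ih =>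
    have e : (P ++ p :: (mid ++ q :: Q)) ++ [c] = P ++ p :: (mid ++ q :: (Q ++ [c])) := by simp
    rw [e] at ih
    have := Can.step ih hb hc hv
    simpa using this
  | @out L P mid p v T h hb hc hv ih =>
    have e : (P ++ p :: mid) ++ [c] = P ++ p :: (mid ++ c :: []) := by simp
    rw [e] at ih
    have := Can.step ih hb hc hv
    simpa using this

theorem RC.last {V : Type} {b c : V} {L Y : List V} {T : List (V × List V)}
    (h : RC b c L Y T) : ∃ x L0 Y0, L = x :: L0 ∧ Y = Y0 ++ [x] := by
  induction h with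
  | base h => exact ⟨b, [], [], rfl, rfl⟩
  | @inn L P Q mid p q v T h hb hc hv ih =>
    obtain ⟨x, L0, Y0, h1, h2⟩ := ih
    refine ⟨x, L0, ?_⟩
    rcases List.eq_nil_or_concat Q with h3 | ⟨Q', z, h3⟩
    · subst h3
      have e : P ++ p :: (mid ++ [q]) = (P ++ p :: mid) ++ [q] := by simp
      rw [e] at h2
      have h4 := List.append_inj' h2 rfl
      have h5 : q = x := by simpa using h4.2
      exact ⟨P ++ [p, v], h1, by simp [h5]⟩
    · rw [List.concat_eq_append] at h3
      subst h3
      have e : P ++ p :: (mid ++ q :: (Q' ++ [z])) = (P ++ p :: (mid ++ q :: Q')) ++ [z] := by simp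
      rw [e] at h2
      have h4 := List.append_inj' h2 rfl
      have h5 : z = x := by simpa using h4.2
      exact ⟨P ++ p :: v :: q :: Q', h1, by simp [h5]⟩
  | @out L P mid p v T h hb hc hv ih => exact ⟨v, L, P ++ [p], rfl, by simp⟩

theorem RC.fst {V : Type} {b c : V} {L Y : List V} {T : List (V × List V)}
    (h : RC b c L Y T) : (∀ y ∈ L, y = b ∨ ∃ x ∈ T, x.1 = y) ∧ ∀ x ∈ T, x.1 ≠ b ∧ x.1 ≠ c := by
  induction h with
  | base h => simp
  | @inn L P Q mid p q v T h hb hc hv ih =>
    refine ⟨fun y hy => ?_, fun x hx => ?_⟩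
    · rcases ih.1 y hy with h1 | ⟨x, h1, h2⟩
      · exact Or.inl h1
      · exact Or.inr ⟨x, List.mem_cons_of_mem _ h1, h2⟩
    · rcases List.mem_cons.mp hx with rfl | h1
      · exact ⟨hb, hc⟩
      · exact ih.2 x h1
  | @out L P mid p v T h hb hc hv ih =>
    refine ⟨fun y hy => ?_, fun x hx => ?_⟩
    · rcases List.mem_cons.mp hy with rfl | hy
      · exact Or.inr ⟨_, List.mem_cons_self, rfl⟩
      rcases ih.1 y hy with h1 | ⟨x, h1, h2⟩
      · exact Or.inl h1
      · exact Or.inr ⟨x, List.mem_cons_of_mem _ h1, h2⟩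
    · rcases List.mem_cons.mp hx with rfl | h1
      · exact ⟨hb, hc⟩
      · exact ih.2 x h1

/-- inner steps -/
inductive Inn {V : Type} (b c : V) (Y0 : List V) (T0 : List (V × List V)) :
    List V → List (V × List V) → Prop
  | refl : Inn b c Y0 T0 Y0 T0
  | step {P Q mid : List V} {p q v : V} {T : List (V × List V)}
      (h : Inn b c Y0 T0 (P ++ p :: (mid ++ q :: Q)) T) (hb : v ≠ b) (hc : v ≠ c)
      (hv : ∀ x ∈ T, x.1 ≠ v) :
      Inn b c Y0 T0 (P ++ p :: v :: q :: Q) ((v, p :: (mid ++ [q])) :: T)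

theorem Inn.sub {V : Type} {b c : V} {Y0 Y : List V} {T0 T : List (V × List V)}
    (h : Inn b c Y0 T0 Y T) : ∀ x ∈ T0, x ∈ T := by
  induction h with
  | refl => exact fun x hx => hx
  | step h hb hc hv ih => exact fun x hx => List.mem_cons_of_mem _ (ih x hx)

theorem RC.inv {V : Type} {b c : V} {L' Y : List V} {T : List (V × List V)}
    (h : RC b c L' Y T) : ∀ x L, L' = x :: L → L ≠ [] → ∃ P mid p T0, RC b c L (P ++ p :: mid) T0 ∧
      x ≠ b ∧ x ≠ c ∧ (∀ z ∈ T0, z.1 ≠ x) ∧
      Inn b c (P ++ [p, x]) ((x, p :: (mid ++ [c])) :: T0) Y T := by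
  induction h with
  | base h =>
    intro x L h1 h2
    simp only [List.cons.injEq] at h1
    exact absurd h1.2.symm h2
  | @inn L P Q mid p q v T h hb hc hv ih =>
    intro x L h1 h2
    obtain ⟨P', mid', p', T0, h3, h4, h5, h6, h7⟩ := ih x L h1 h2
    exact ⟨P', mid', p', T0, h3, h4, h5, h6, Inn.step h7 hb hc hv⟩
  | @out L P mid p v T h hb hc hv ih =>
    intro x L h1 h2
    simp only [List.cons.injEq] at h1
    obtain ⟨rfl, rfl⟩ := h1
    exact ⟨P, mid, p, T, h, hb, hc, hv, Inn.refl⟩

/-- the elements of `T'` are `s` and the `f x`, `x ∈ T` -/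
def Re {V : Type} (f : V × List V → V × List V) (s : V × List V) (T T' : List (V × List V)) :
    Prop := ∀ y, y ∈ T' ↔ y = s ∨ ∃ x ∈ T, y = f x

theorem inn_ctx {V : Type} {b c : V} {Y0 Y : List V} {T0 T : List (V × List V)}
    (h : Inn b c Y0 T0 Y T) (f : V × List V → V × List V) (s : V × List V)
    (hf1 : ∀ x, (f x).1 = x.1)
    (hf : ∀ x : V × List V, x.1 ≠ b → (∀ z ∈ T0, z.1 ≠ x.1) → f x = x)
    (L' R : List V) (T0' : List (V × List V)) (h0 : RC b c L' (Y0 ++ R) T0') (hr : Re f s T0 T0') :
    (∀ z ∈ T, z.1 ≠ s.1) → ∃ T', RC b c L' (Y ++ R) T' ∧ Re f s T T' := by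
  induction h with
  | refl => exact fun _ => ⟨T0', h0, hr⟩
  | @step P Q mid p q v T h hb hc hv ih =>
    intro hs
    obtain ⟨T', h1, h2⟩ := ih (fun z hz => hs z (List.mem_cons_of_mem _ hz))
    have e : (P ++ p :: (mid ++ q :: Q)) ++ R = P ++ p :: (mid ++ q :: (Q ++ R)) := by simp
    rw [e] at h1
    have hvs : v ≠ s.1 := hs _ List.mem_cons_self
    have h3 := RC.inn h1 hb hc (fun x hx => by
      rcases (h2 x).mp hx with rfl | ⟨y, hy, rfl⟩
      · exact hvs.symm
      · rw [hf1]; exact hv y hy)
    refine ⟨_, by simpa using h3, fun y => ?_⟩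
    have hfv : f (v, p :: (mid ++ [q])) = (v, p :: (mid ++ [q])) :=
      hf _ hb (fun z hz => hv z (h.sub z hz))
    constructor
    · intro hy
      rcases List.mem_cons.mp hy with rfl | hy
      · exact Or.inr ⟨_, List.mem_cons_self, hfv.symm⟩
      · rcases (h2 y).mp hy with h4 | ⟨x, hx, h4⟩
        · exact Or.inl h4
        · exact Or.inr ⟨x, List.mem_cons_of_mem _ hx, h4⟩
    · rintro (h4 | ⟨x, hx, h4⟩)
      · exact List.mem_cons_of_mem _ ((h2 y).mpr (Or.inl h4))
      · rcases List.mem_cons.mp hx with rfl | hx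
        · rw [h4, hfv]; exact List.mem_cons_self
        · exact List.mem_cons_of_mem _ ((h2 y).mpr (Or.inr ⟨x, hx, h4⟩))

open Classical in
/-- the last element is replaced by `v` -/
noncomputable def trA {V : Type} (v : V) (M : List V) (x : V × List V) : V × List V :=
  if x.1 ∈ M then (x.1, x.2.dropLast ++ [v]) else x

theorem trA_fst {V : Type} (v : V) (M : List V) (x : V × List V) : (trA v M x).1 = x.1 := by
  unfold trA; split_ifs <;> rfl

theorem lemA {V : Type} {b c q v : V} {Q : List V} (hvb : v ≠ b) (hvc : v ≠ c) (M : List V) :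
    ∀ {Y : List V} {T : List (V × List V)}, RC b c (M ++ q :: Q) Y T → (∀ z ∈ T, z.1 ≠ v) →
    ∃ T', RC b c (v :: q :: Q) (Y ++ [v]) T' ∧ Re (trA v M) (v, [q, c]) T T' := by
  induction M with
  | nil =>
    intro Y T h hv
    obtain ⟨x, L0, Y0, h1, h2⟩ := h.last
    simp only [List.nil_append, List.cons.injEq] at h1
    obtain ⟨rfl, rfl⟩ := h1
    subst h2
    refine ⟨(v, q :: ([] ++ [c])) :: T, ?_, ?_⟩
    · have := RC.out (P := Y0) (p := q) (mid := []) (v := v) h hvb hvc hv
      simpa using this
    · intro y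
      have : ∀ x, trA v [] x = x := fun x => by simp [trA]
      simp [this]
  | cons m M ih =>
    intro Y T h hv
    obtain ⟨P, mid, p, T0, h1, h2, h3, h4, h5⟩ := h.inv m (M ++ q :: Q) rfl (by simp)
    have hv0 : ∀ z ∈ T0, z.1 ≠ v := fun z hz => hv z (h5.sub z (List.mem_cons_of_mem _ hz))
    have hmv : m ≠ v := hv (m, p :: (mid ++ [c])) (h5.sub _ List.mem_cons_self)
    obtain ⟨T0', h6, h7⟩ := ih h1 hv0
    have e : (P ++ p :: mid) ++ [v] = P ++ p :: (mid ++ v :: []) := by simp
    rw [e] at h6
    have h8 := RC.inn h6 h2 h3 (fun x hx => by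
      rcases (h7 x).mp hx with rfl | ⟨y, hy, rfl⟩
      · exact hmv.symm
      · rw [trA_fst]; exact h4 y hy)
    have hML : ∀ y ∈ M, y = b ∨ ∃ x ∈ T0, x.1 = y := fun y hy =>
      h1.fst.1 y (List.mem_append_left _ hy)
    refine inn_ctx h5 (trA v (m :: M)) (v, [q, c]) (trA_fst v _) ?_ (v :: q :: Q) [v]
      ((m, p :: (mid ++ [v])) :: T0') (by simpa using h8) ?_ hv
    · intro x hxb hx
      unfold trA
      rw [if_neg]
      intro hxm
      rcases List.mem_cons.mp hxm with hxm | hxm
      · exact hx _ List.mem_cons_self hxm.symm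
      · rcases hML _ hxm with h9 | ⟨z, hz, h9⟩
        · exact hxb h9
        · exact hx z (List.mem_cons_of_mem _ hz) h9
    · have hm : trA v (m :: M) (m, p :: (mid ++ [c])) = (m, p :: (mid ++ [v])) := by
        have : (p :: (mid ++ [c])).dropLast = p :: mid := by
          rw [← List.cons_append, List.dropLast_concat]
        simp [trA, this]
      have hx0 : ∀ x ∈ T0, trA v (m :: M) x = trA v M x := by
        intro x hx
        have := h4 x hx
        have h9 : (x.1 ∈ m :: M) ↔ x.1 ∈ M := by simp [this]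
        unfold trA
        by_cases h10 : x.1 ∈ M
        · rw [if_pos h10, if_pos (h9.mpr h10)]
        · rw [if_neg h10, if_neg (fun h => h10 (h9.mp h))]
      intro y
      constructor
      · intro hy
        rcases List.mem_cons.mp hy with rfl | hy
        · exact Or.inr ⟨_, List.mem_cons_self, hm.symm⟩
        · rcases (h7 y).mp hy with h9 | ⟨x, hx, h9⟩
          · exact Or.inl h9
          · exact Or.inr ⟨x, List.mem_cons_of_mem _ hx, by rw [hx0 x hx]; exact h9⟩
      · rintro (h9 | ⟨x, hx, h9⟩)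
        · exact List.mem_cons_of_mem _ ((h7 y).mpr (Or.inl h9))
        · rcases List.mem_cons.mp hx with rfl | hx
          · rw [h9, hm]; exact List.mem_cons_self
          · rw [hx0 x hx] at h9
            exact List.mem_cons_of_mem _ ((h7 y).mpr (Or.inr ⟨x, hx, h9⟩))

open Classical in
/-- the lists of `mid` get the last element `v`, the list of `p` gets `v` before `c` -/
noncomputable def trB {V : Type} (v p c : V) (M : List V) (x : V × List V) : V × List V :=
  if x.1 ∈ M then (x.1, x.2.dropLast ++ [v]) else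
    if x.1 = p then (x.1, x.2.dropLast ++ [v, c]) else x

theorem trB_fst {V : Type} (v p c : V) (M : List V) (x : V × List V) :
    (trB v p c M x).1 = x.1 := by
  unfold trB; split_ifs <;> rfl

theorem lemB {V : Type} {b c p q v : V} {mid Q : List V} (hvb : v ≠ b) (hvc : v ≠ c)
    (P2 : List V) : ∀ {Y : List V} {T : List (V × List V)},
    RC b c (P2 ++ p :: (mid ++ q :: Q)) Y T → (∀ z ∈ T, z.1 ≠ v) →
    ∃ T', RC b c (P2 ++ p :: v :: q :: Q) Y T' ∧ Re (trB v p c mid) (v, [q, c]) T T' := by
  induction P2 with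
  | nil =>
    intro Y T h hv
    obtain ⟨P, mid', p', T0, h1, h2, h3, h4, h5⟩ := h.inv p (mid ++ q :: Q) rfl (by simp)
    have hv0 : ∀ z ∈ T0, z.1 ≠ v := fun z hz => hv z (h5.sub z (List.mem_cons_of_mem _ hz))
    have hpv : p ≠ v := hv (p, p' :: (mid' ++ [c])) (h5.sub _ List.mem_cons_self)
    obtain ⟨T0', h6, h7⟩ := lemA hvb hvc mid h1 hv0
    have e : (P ++ p' :: mid') ++ [v] = P ++ p' :: (mid' ++ [v]) := by simp
    rw [e] at h6
    have h8 := RC.out h6 h2 h3 (fun x hx => by
      rcases (h7 x).mp hx with rfl | ⟨y, hy, rfl⟩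
      · exact hpv.symm
      · rw [trA_fst]; exact h4 y hy)
    have hML : ∀ y ∈ mid, y = b ∨ ∃ x ∈ T0, x.1 = y := fun y hy =>
      h1.fst.1 y (List.mem_append_left _ hy)
    have hpM : p ∉ mid := by
      intro hp
      rcases hML _ hp with h9 | ⟨z, hz, h9⟩
      · exact h2 h9
      · exact h4 z hz h9
    have h10 := inn_ctx h5 (trB v p c mid) (v, [q, c]) (trB_fst v p c _) ?_ (p :: v :: q :: Q) []
      ((p, p' :: ((mid' ++ [v]) ++ [c])) :: T0') (by simpa using h8) ?_ hv
    · simpa using h10
    · intro x hxb hx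
      unfold trB
      rw [if_neg, if_neg]
      · intro hxm
        exact hx _ List.mem_cons_self hxm.symm
      · intro hxm
        rcases hML _ hxm with h9 | ⟨z, hz, h9⟩
        · exact hxb h9
        · exact hx z (List.mem_cons_of_mem _ hz) h9
    · have hm : trB v p c mid (p, p' :: (mid' ++ [c])) = (p, p' :: ((mid' ++ [v]) ++ [c])) := by
        have : (p' :: (mid' ++ [c])).dropLast = p' :: mid' := by
          rw [← List.cons_append, List.dropLast_concat]
        simp [trB, this, hpM]
      have hx0 : ∀ x ∈ T0, trB v p c mid x = trA v mid x := by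
        intro x hx
        have := h4 x hx
        simp [trB, trA, this]
      intro y
      constructor
      · intro hy
        rcases List.mem_cons.mp hy with rfl | hy
        · exact Or.inr ⟨_, List.mem_cons_self, hm.symm⟩
        · rcases (h7 y).mp hy with h9 | ⟨x, hx, h9⟩
          · exact Or.inl h9
          · exact Or.inr ⟨x, List.mem_cons_of_mem _ hx, by rw [hx0 x hx]; exact h9⟩
      · rintro (h9 | ⟨x, hx, h9⟩)
        · exact List.mem_cons_of_mem _ ((h7 y).mpr (Or.inl h9))
        · rcases List.mem_cons.mp hx with rfl | hx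
          · rw [h9, hm]; exact List.mem_cons_self
          · rw [hx0 x hx] at h9
            exact List.mem_cons_of_mem _ ((h7 y).mpr (Or.inr ⟨x, hx, h9⟩))
  | cons w P2 ih =>
    intro Y T h hv
    obtain ⟨P, mid', p', T0, h1, h2, h3, h4, h5⟩ :=
      h.inv w (P2 ++ p :: (mid ++ q :: Q)) rfl (by simp)
    have hv0 : ∀ z ∈ T0, z.1 ≠ v := fun z hz => hv z (h5.sub z (List.mem_cons_of_mem _ hz))
    have hwv : w ≠ v := hv (w, p' :: (mid' ++ [c])) (h5.sub _ List.mem_cons_self)
    obtain ⟨T0', h6, h7⟩ := ih h1 hv0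
    have h8 := RC.out h6 h2 h3 (fun x hx => by
      rcases (h7 x).mp hx with rfl | ⟨y, hy, rfl⟩
      · exact hwv.symm
      · rw [trB_fst]; exact h4 y hy)
    have hML : ∀ y, (y ∈ mid ∨ y = p) → y = b ∨ ∃ x ∈ T0, x.1 = y := fun y hy =>
      h1.fst.1 y (by rcases hy with hy | hy <;> simp [hy])
    have h10 := inn_ctx h5 (trB v p c mid) (v, [q, c]) (trB_fst v p c _) ?_
      (w :: (P2 ++ p :: v :: q :: Q)) [] ((w, p' :: (mid' ++ [c])) :: T0') (by simpa using h8) ?_ hv
    · simpa using h10
    · intro x hxb hx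
      unfold trB
      rw [if_neg, if_neg]
      · intro hxm
        rcases hML _ (Or.inr hxm) with h9 | ⟨z, hz, h9⟩
        · exact hxb h9
        · exact hx z (List.mem_cons_of_mem _ hz) h9
      · intro hxm
        rcases hML _ (Or.inl hxm) with h9 | ⟨z, hz, h9⟩
        · exact hxb h9
        · exact hx z (List.mem_cons_of_mem _ hz) h9
    · have hm : trB v p c mid (w, p' :: (mid' ++ [c])) = (w, p' :: (mid' ++ [c])) := by
        have hw1 : w ∉ mid := by
          intro hxm
          rcases hML _ (Or.inl hxm) with h9 | ⟨z, hz, h9⟩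
          · exact h2 h9
          · exact h4 z hz h9
        have hw2 : w ≠ p := by
          intro hxm
          rcases hML _ (Or.inr hxm) with h9 | ⟨z, hz, h9⟩
          · exact h2 h9
          · exact h4 z hz h9
        simp [trB, hw1, hw2]
      intro y
      constructor
      · intro hy
        rcases List.mem_cons.mp hy with rfl | hy
        · exact Or.inr ⟨_, List.mem_cons_self, hm.symm⟩
        · rcases (h7 y).mp hy with h9 | ⟨x, hx, h9⟩
          · exact Or.inl h9
          · exact Or.inr ⟨x, List.mem_cons_of_mem _ hx, h9⟩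
      · rintro (h9 | ⟨x, hx, h9⟩)
        · exact List.mem_cons_of_mem _ ((h7 y).mpr (Or.inl h9))
        · rcases List.mem_cons.mp hx with rfl | hx
          · rw [h9, hm]; exact List.mem_cons_self
          · exact List.mem_cons_of_mem _ ((h7 y).mpr (Or.inr ⟨x, hx, h9⟩))

/-- `u` and `w` are joined by a step. -/
def Ed {V : Type} (T : List (V × List V)) (u w : V) : Prop :=
  (∃ y ∈ T, y.1 = u ∧ w ∈ y.2) ∨ ∃ y ∈ T, y.1 = w ∧ u ∈ y.2

/-- the step of `u` covers a vertex -/
def IsM {V : Type} (S : List (V × List V)) (u : V) : Prop := ∃ x ∈ S, x.1 = u ∧ 2 < x.2.length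

theorem Re.ex {V : Type} {f : V × List V → V × List V} {s : V × List V}
    {T T' : List (V × List V)} (h : Re f s T T') (P : V × List V → Prop) :
    (∃ y ∈ T', P y) ↔ P s ∨ ∃ x ∈ T, P (f x) := by
  constructor
  · rintro ⟨y, hy, h1⟩
    rcases (h y).mp hy with rfl | ⟨x, hx, rfl⟩
    · exact Or.inl h1
    · exact Or.inr ⟨x, hx, h1⟩
  · rintro (h1 | ⟨x, hx, h1⟩)
    · exact ⟨s, (h s).mpr (Or.inl rfl), h1⟩
    · exact ⟨f x, (h _).mpr (Or.inr ⟨x, hx, rfl⟩), h1⟩

theorem dropLast_last {V : Type} {l : List V} {c : V} (h : l.getLast? = some c) :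
    l = l.dropLast ++ [c] := by
  have h1 : l ≠ [] := by rintro rfl; simp at h
  have h2 := List.dropLast_append_getLast h1
  rw [List.getLast?_eq_some_getLast h1] at h
  have h3 : l.getLast h1 = c := by simpa using h
  rw [h3] at h2
  exact h2.symm

theorem gl {V : Type} {x y : V} {l : List V} : (x :: (l ++ [y])).getLast? = some y := by
  rw [show x :: (l ++ [y]) = (x :: l) ++ [y] from rfl]
  exact List.getLast?_concat ..

theorem head_dl {V : Type} {l r : List V} (h : 2 ≤ l.length) :
    (l.dropLast ++ r).head? = l.head? := by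
  match l, h with
  | x :: y :: l, _ => simp

theorem rotC {V : Type} {a b : V} {C : List V} {S : List (V × List V)} (h : Can a b C S) :
    ∀ c, c ≠ a → c ≠ b → (∀ x ∈ S, x.1 ≠ c) → ∃ T, RC b c C [b, a] T ∧
      (∀ u, (∃ x ∈ T, x.1 = u) ↔ u = a ∨ ∃ x ∈ S, x.1 = u) ∧
      (∀ x ∈ S, ∀ w ∈ x.2, Ed T x.1 w) ∧
      (∀ x ∈ T, x.1 ∈ C → x.2.getLast? = some c) ∧
      (∃ x ∈ T, x.1 = a ∧ b ∈ x.2) ∧
      (∀ u, u ≠ b → (IsL T u ↔ IsR S u)) ∧
      (∀ u, u ≠ c → (IsR T u ↔ IsM S u)) ∧
      (∀ u, u ≠ a → (IsM T u ↔ IsL S u)) := by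
  induction h with
  | base h =>
    intro c hca hcb _
    refine ⟨[(a, [b, c])], ?_, ?_, ?_, ?_, ?_, ?_, ?_, ?_⟩
    · have := RC.out (P := []) (p := b) (mid := []) (v := a) (RC.base hcb.symm) h hca.symm
        (by simp)
      simpa using this
    · simp [eq_comm]
    · simp
    · simp
    · simp
    · intro u hu
      simp [IsL, IsR, hu.symm]
    · intro u hu
      simp [IsR, IsM, hu.symm]
    · intro u hu
      simp [IsL, IsM]
  | @step P Q mid p q v S hcan ha hb hv ih =>
    intro c hca hcb hc
    obtain ⟨T, h1, hN, hE, hC, hA, hL, hR, hM⟩ := ih c hca hcb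
      (fun x hx => hc x (List.mem_cons_of_mem _ hx))
    have hvc : v ≠ c := hc _ List.mem_cons_self
    have hvT : ∀ z ∈ T, z.1 ≠ v := by
      intro z hz hzv
      rcases (hN v).mp ⟨z, hz, hzv⟩ with h2 | ⟨x, hx, h2⟩
      · exact ha h2
      · exact hv x hx h2
    obtain ⟨T', h2, h3⟩ := lemB hb hvc P h1 hvT
    obtain ⟨hab, hnd, ⟨D, hD⟩, hC0, hS1, hS2⟩ := H29.cb hcan
    obtain ⟨-, -, -, -, -, hT2⟩ := H29.cb h1.can
    have hlen : ∀ x ∈ T, 2 ≤ x.2.length := fun x hx => (hT2 x hx).2.2.2.2.1
    have hTc : ∀ x ∈ T, x.1 ≠ c := fun x hx => (h1.fst.2 x hx).2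
    have hTb : ∀ x ∈ T, x.1 ≠ b := fun x hx => (h1.fst.2 x hx).1
    -- the places of a and b
    have haP : a ∈ P ++ [p] := by
      have e : P ++ p :: (mid ++ q :: Q) = (P ++ [p]) ++ (mid ++ q :: Q) := by simp
      rw [e] at hD
      cases P with
      | nil => simp at hD; simp [hD.1]
      | cons x P => simp at hD; simp [hD.1]
    have hbQ : b ∈ q :: Q := by
      have e : P ++ p :: (mid ++ q :: Q) = (P ++ p :: mid) ++ (q :: Q) := by simp
      rw [e] at hD
      have h4 : ((P ++ p :: mid) ++ (q :: Q)).getLast? = some b := by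
        rw [hD]; exact gl
      rw [List.getLast?_append] at h4
      have h5 : (q :: Q).getLast? = some b := by
        rcases h6 : (q :: Q).getLast? with _ | z
        · simp at h6
        · rw [h6] at h4; simpa using h4
      exact List.mem_of_getLast? h5
    have hnd' := hnd
    rw [List.nodup_append] at hnd'
    have hnd2 := hnd'.2.1
    rw [List.nodup_cons] at hnd2
    have hnd3 := hnd2.2
    rw [List.nodup_append] at hnd3
    have hpmid : p ∉ mid := fun hp => hnd2.1 (List.mem_append_left _ hp)
    have hPmid : ∀ x ∈ P, x ∉ mid := fun x hx hx' =>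
      hnd'.2.2 x hx x (List.mem_cons_of_mem _ (List.mem_append_left _ hx')) rfl
    have hQmid : ∀ x ∈ q :: Q, x ∉ mid := fun x hx hx' => hnd3.2.2 x hx' x hx rfl
    have hamid : a ∉ mid := by
      rcases List.mem_append.mp haP with h4 | h4
      · exact hPmid a h4
      · simp at h4; rw [h4]; exact hpmid
    have hbmid : b ∉ mid := hQmid b hbQ
    have hpb : p ≠ b := fun h4 => hnd2.1 (by rw [h4]; exact List.mem_append_right _ hbQ)
    have hmem : ∀ x, x ∈ mid ∨ x = p → x ∈ P ++ p :: (mid ++ q :: Q) := by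
      intro x hx
      rcases hx with hx | hx <;> simp [hx]
    have hex : ∀ x, x ∈ mid ∨ x = p → ∃ y ∈ T, y.1 = x := by
      intro x hx
      rcases h1.fst.1 x (hmem x hx) with h4 | h4
      · rcases hx with hx | hx
        · rw [h4] at hx; exact absurd hx hbmid
        · rw [hx] at h4; exact absurd h4 hpb
      · exact h4
    have hlast : ∀ y ∈ T, y.1 ∈ mid ∨ y.1 = p → y.2 = y.2.dropLast ++ [c] := fun y hy hx =>
      dropLast_last (hC y hy (hmem _ hx))
    -- the lists keep all elements except c
    have hkeep : ∀ y ∈ T, ∀ w ∈ y.2, w ≠ c → w ∈ (trB v p c mid y).2 := by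
      intro y hy w hw hwc
      unfold trB
      split_ifs with h4 h5
      · have h6 := hlast y hy (Or.inl h4)
        rw [h6] at hw
        rcases List.mem_append.mp hw with h7 | h7
        · exact List.mem_append_left _ h7
        · simp at h7; exact absurd h7 hwc
      · have h6 := hlast y hy (Or.inr h5)
        rw [h6] at hw
        rcases List.mem_append.mp hw with h7 | h7
        · exact List.mem_append_left _ h7
        · simp at h7; exact absurd h7 hwc
      · exact hw
    have hin : ∀ y ∈ T, trB v p c mid y ∈ T' := fun y hy => (h3 _).mpr (Or.inr ⟨y, hy, rfl⟩)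
    have hs : (v, [q, c]) ∈ T' := (h3 _).mpr (Or.inl rfl)
    refine ⟨T', h2, ?_, ?_, ?_, ?_, ?_, ?_, ?_⟩
    · intro u
      rw [h3.ex (fun y => y.1 = u)]
      simp only [trB_fst]
      rw [hN u]
      simp only [List.mem_cons, exists_eq_or_imp]
      tauto
    · intro x hx w hw
      rcases List.mem_cons.mp hx with rfl | hx
      · simp only at hw ⊢
        rcases List.mem_cons.mp hw with rfl | hw
        · obtain ⟨y, hy, h4⟩ := hex w (Or.inr rfl)
          refine Or.inr ⟨_, hin y hy, by rw [trB_fst]; exact h4, ?_⟩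
          unfold trB
          rw [if_neg (by rw [h4]; exact hpmid), if_pos h4]
          simp
        · rcases List.mem_append.mp hw with hw | hw
          · obtain ⟨y, hy, h4⟩ := hex w (Or.inl hw)
            refine Or.inr ⟨_, hin y hy, by rw [trB_fst]; exact h4, ?_⟩
            unfold trB
            rw [if_pos (by rw [h4]; exact hw)]
            simp
          · simp at hw
            subst hw
            exact Or.inl ⟨_, hs, rfl, by simp⟩
      · have hwc : w ≠ c := by
          rcases (hS2 x hx).2.2.2.2.2 w hw with h4 | h4 | ⟨y, hy, h4⟩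
          · rw [h4]; exact hca.symm
          · rw [h4]; exact hcb.symm
          · rw [← h4]; exact hc y (List.mem_cons_of_mem _ hy)
        have hxc : x.1 ≠ c := hc x (List.mem_cons_of_mem _ hx)
        rcases hE x hx w hw with ⟨y, hy, h4, h5⟩ | ⟨y, hy, h4, h5⟩
        · exact Or.inl ⟨_, hin y hy, by rw [trB_fst]; exact h4, hkeep y hy w h5 hwc⟩
        · exact Or.inr ⟨_, hin y hy, by rw [trB_fst]; exact h4, hkeep y hy _ h5 hxc⟩
    · intro x hx hxC
      rcases (h3 x).mp hx with rfl | ⟨y, hy, rfl⟩
      · simp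
      · rw [trB_fst] at hxC
        have hyv := hvT y hy
        have h4 : y.1 ∈ P ∨ y.1 = p ∨ y.1 = q ∨ y.1 ∈ Q := by
          simp only [List.mem_append, List.mem_cons] at hxC
          tauto
        have h5 : y.1 ∉ mid := by
          rcases h4 with h4 | h4 | h4 | h4
          · exact hPmid _ h4
          · rw [h4]; exact hpmid
          · exact hQmid _ (by rw [h4]; simp)
          · exact hQmid _ (by simp [h4])
        unfold trB
        rw [if_neg h5]
        split_ifs with h6
        · simp
        · exact hC y hy (by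
            simp only [List.mem_append, List.mem_cons]
            tauto)
    · obtain ⟨y, hy, h4, h5⟩ := hA
      exact ⟨_, hin y hy, by rw [trB_fst]; exact h4, hkeep y hy b h5 hcb.symm⟩
    · intro u hu
      unfold IsL IsR
      rw [h3.ex (fun y => y.2.head? = some u)]
      have h4 : ∀ x ∈ T, (trB v p c mid x).2.head? = x.2.head? := by
        intro x hx
        unfold trB
        split_ifs
        · exact head_dl (hlen x hx)
        · exact head_dl (hlen x hx)
        · rfl
      have h5 : (∃ x ∈ T, (trB v p c mid x).2.head? = some u) ↔ IsL T u := by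
        unfold IsL
        constructor
        · rintro ⟨x, hx, h6⟩; exact ⟨x, hx, by rw [← h4 x hx]; exact h6⟩
        · rintro ⟨x, hx, h6⟩; exact ⟨x, hx, by rw [h4 x hx]; exact h6⟩
      rw [h5, hL u hu]
      have h6 : (p :: (mid ++ [q])).getLast? = some q := gl
      simp only [List.mem_cons, exists_eq_or_imp, h6]
      simp [IsR]
    · intro u hu
      constructor
      · rintro ⟨y, hy, h4⟩
        rcases (h3 y).mp hy with rfl | ⟨x, hx, rfl⟩
        · simp at h4; exact absurd h4.symm hu
        · unfold trB at h4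
          split_ifs at h4 with h5 h6
          · simp at h4
            refine ⟨_, List.mem_cons_self, h4, ?_⟩
            have : mid ≠ [] := List.ne_nil_of_mem h5
            have := List.length_pos_iff.mpr this
            simp; omega
          · simp at h4; exact absurd h4.symm hu
          · obtain ⟨z, hz, h7⟩ := (hR u hu).mp ⟨x, hx, h4⟩
            exact ⟨z, List.mem_cons_of_mem _ hz, h7⟩
      · rintro ⟨z, hz, h4, h5⟩
        rcases List.mem_cons.mp hz with rfl | hz
        · simp only at h4
          have h6 : mid ≠ [] := by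
            rintro rfl
            simp at h5
          obtain ⟨m, hm⟩ := List.exists_mem_of_ne_nil _ h6
          obtain ⟨y, hy, h7⟩ := hex m (Or.inl hm)
          refine ⟨_, hin y hy, ?_⟩
          unfold trB
          rw [if_pos (by rw [h7]; exact hm)]
          simp [h4]
        · obtain ⟨x, hx, h6⟩ := (hR u hu).mpr ⟨z, hz, h4, h5⟩
          refine ⟨_, hin x hx, ?_⟩
          have h7 : ¬ (x.1 ∈ mid ∨ x.1 = p) := by
            intro h8
            have := hC x hx (hmem _ h8)
            rw [this] at h6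
            exact hu (by simpa using h6.symm)
          push Not at h7
          unfold trB
          rw [if_neg h7.1, if_neg h7.2]
          exact h6
    · intro u hu
      constructor
      · rintro ⟨y, hy, h4, h5⟩
        rcases (h3 y).mp hy with rfl | ⟨x, hx, rfl⟩
        · simp at h5
        · rw [trB_fst] at h4
          unfold trB at h5
          split_ifs at h5 with h6 h7
          · obtain ⟨z, hz, h8⟩ := (hM u hu).mp ⟨x, hx, h4, by
              have := hlen x hx
              simp at h5
              omega⟩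
            exact ⟨z, List.mem_cons_of_mem _ hz, h8⟩
          · exact ⟨_, List.mem_cons_self, by simp [← h4, h7]⟩
          · obtain ⟨z, hz, h8⟩ := (hM u hu).mp ⟨x, hx, h4, h5⟩
            exact ⟨z, List.mem_cons_of_mem _ hz, h8⟩
      · rintro ⟨z, hz, h4⟩
        rcases List.mem_cons.mp hz with rfl | hz
        · have h5 : p = u := by simpa using h4
          obtain ⟨y, hy, h7⟩ := hex p (Or.inr rfl)
          refine ⟨_, hin y hy, by rw [trB_fst, h7, h5], ?_⟩
          unfold trB
          rw [if_neg (by rw [h7]; exact hpmid), if_pos h7]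
          have := hlen y hy
          simp
          omega
        · obtain ⟨x, hx, h6, h7⟩ := (hM u hu).mpr ⟨z, hz, h4⟩
          refine ⟨_, hin x hx, by rw [trB_fst, h6], ?_⟩
          unfold trB
          split_ifs
          · have := hlen x hx
            simp
            omega
          · have := hlen x hx
            simp
            omega
          · exact h7

/-- Rotation. -/
theorem rot {V : Type} {a b c : V} {S : List (V × List V)} (h : Can a b [a, c, b] S) :
    ∃ S', Can b c [b, a, c] S' ∧ (∀ x ∈ S, ∀ w ∈ x.2, Ed S' x.1 w ∨ (x.1 = c ∧ w = b)) ∧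
      (∃ x ∈ S', x.1 = a ∧ b ∈ x.2) ∧
      ∀ u, u ≠ a → u ≠ b → u ≠ c → ((∃ x ∈ S', x.1 = u) ↔ ∃ x ∈ S, x.1 = u) ∧
        (IsL S' u ↔ IsR S u) ∧ (IsR S' u ↔ IsM S u) ∧ (IsM S' u ↔ IsL S u) := by
  obtain ⟨hab, hnd, -, -, -, -⟩ := H29.cb h
  have key : ∀ C, Can a b C S → C = [a, c, b] → ∃ (mid : List V) (S0 : List (V × List V)),
      S = (c, a :: (mid ++ [b])) :: S0 ∧ Can a b (a :: (mid ++ [b])) S0 ∧ c ≠ a ∧ c ≠ b ∧
      ∀ x ∈ S0, x.1 ≠ c := by
    intro C hC
    cases hC with
    | base h0 =>
      intro hE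
      have := congrArg List.length hE
      simp at this
    | @step P Q mid p q v S0 hcan ha hb hv =>
      intro hE
      have hl := congrArg List.length hE
      simp at hl
      have hP : P = [] := List.length_eq_zero_iff.mp (by omega)
      have hQ : Q = [] := List.length_eq_zero_iff.mp (by omega)
      subst hP hQ
      simp only [List.nil_append, List.cons.injEq, and_true] at hE
      obtain ⟨rfl, rfl, rfl⟩ := hE
      exact ⟨mid, S0, rfl, hcan, ha, hb, hv⟩
  obtain ⟨mid, S0, rfl, hcan, hca, hcb, hv⟩ := key _ h rfl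
  obtain ⟨T, h1, hN, hE, hC, hA, hL, hR, hM⟩ := rotC hcan c hca hcb hv
  refine ⟨T, by simpa using h1.can, ?_, hA, ?_⟩
  · intro x hx w hw
    rcases List.mem_cons.mp hx with rfl | hx
    · rcases h1.fst.1 w hw with h2 | ⟨y, hy, h2⟩
      · exact Or.inr ⟨rfl, h2⟩
      · refine Or.inl (Or.inr ⟨y, hy, h2, ?_⟩)
        exact List.mem_of_getLast? (hC y hy (by rw [h2]; exact hw))
    · exact Or.inl (hE x hx w hw)
  · intro u hua hub huc
    refine ⟨?_, ?_, ?_, ?_⟩
    · rw [hN u]
      simp [hua, huc.symm]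
    · rw [hL u hub]
      have h6 : (a :: (mid ++ [b])).getLast? = some b := gl
      simp only [IsR, List.mem_cons, exists_eq_or_imp, h6]
      simp [hub.symm]
    · rw [hR u huc]
      simp [IsM, huc.symm]
    · rw [hM u hua]
      simp [IsL, hua.symm]

end Pool.Agent.SGE.H17
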